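import Mathlib

open MeasureTheory ProbabilityTheory Filter Topology

namespace Pool.Agent.Results.MP_2c00b8_pr.CornerNotGaussian

/-- Square contingency tables of size `m + n` with entries in `ℕ`: the first `m` rows and the
first `m` columns sum to `R`, the remaining `n` rows and `n` columns sum to `S`. -/
def tables (m n R S : ℕ) : Set (Fin (m + n) → Fin (m + n) → ℕ) :=
  {a | (∀ i, ∑ j, a i j = if (i : ℕ) < m then R else S) ∧
       (∀ j, ∑ i, a i j = if (j : ℕ) < m then R else S)}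

/-- The set `M_{n,δ}(B,C)` of the problem: `⌊n^δ⌋` special rows and columns with margin
`⌊B C n⌋`, and `n` ordinary rows and columns with margin `⌊C n⌋`. -/
noncomputable def tablesM (δ B C : ℝ) (n : ℕ) :
    Set (Fin (⌊(n : ℝ) ^ δ⌋₊ + n) → Fin (⌊(n : ℝ) ^ δ⌋₊ + n) → ℕ) :=
  tables ⌊(n : ℝ) ^ δ⌋₊ n ⌊B * C * n⌋₊ ⌊C * n⌋₊

/-- The critical value `B_c(C) = 1 + √(1 + 1/C)`. -/
noncomputable def Bc (C : ℝ) : ℝ := 1 + √(1 + 1 / C)

/-- The top-left entry of a square table (`0` for the empty table). -/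
def corner {N : ℕ} (a : Fin N → Fin N → ℕ) : ℕ :=
  if h : 0 < N then a ⟨0, h⟩ ⟨0, h⟩ else 0

/-- The normalised corner entry of the problem. -/
noncomputable def normalised (δ B C : ℝ) (n : ℕ)
    (a : Fin (⌊(n : ℝ) ^ δ⌋₊ + n) → Fin (⌊(n : ℝ) ^ δ⌋₊ + n) → ℕ) : ℝ :=
  ((corner a : ℝ) - C * (B - Bc C) * (n : ℝ) ^ (1 - δ)) /
    ((n : ℝ) ^ ((1 - δ) / 2) * √(Bc C * C + (Bc C * C) ^ 2))

lemma tables_finite (m n R S : ℕ) : (tables m n R S).Finite := by
  apply Set.Finite.subset
    (Set.Finite.pi' (fun _ : Fin (m + n) => Set.Finite.pi' (fun _ : Fin (m + n) =>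
      Set.finite_Iic (R + S))))
  intro a ha i j
  have h1 := ha.1 i
  have h2 : a i j ≤ ∑ j, a i j := Finset.single_le_sum (fun _ _ => Nat.zero_le _) (Finset.mem_univ j)
  simp only [Set.mem_Iic]
  split_ifs at h1 <;> omega

lemma tables_nonempty (m n R S : ℕ) : (tables m n R S).Nonempty := by
  refine ⟨fun i j => if i = j then (if (i : ℕ) < m then R else S) else 0, ?_, ?_⟩
  · intro i
    simp
  · intro j
    simp

instance isProb_uniformOn_tablesM (δ B C : ℝ) (n : ℕ) :
    IsProbabilityMeasure (uniformOn (tablesM δ B C n)) :=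
  isProbabilityMeasure_uniformOn (tables_finite _ _ _ _) (tables_nonempty _ _ _ _)

lemma measurable_any {N : ℕ} {β : Type*} [MeasurableSpace β] (f : (Fin N → Fin N → ℕ) → β) :
    Measurable f := measurable_of_countable f

/-- The law of the normalised corner entry of a uniform random table in `M_{n,δ}(B,C)`. -/
noncomputable def law (δ B C : ℝ) (n : ℕ) : ProbabilityMeasure ℝ :=
  ⟨(uniformOn (tablesM δ B C n)).map (normalised δ B C n),
    Measure.isProbabilityMeasure_map (measurable_any _).aemeasurable⟩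

section switch

variable {m n : ℕ} (i0 i1 : Fin (m + n))

/-- signed indicator of the two distinguished indices -/
def sgn (i : Fin (m + n)) : ℤ := (if i = i0 then 1 else 0) - (if i = i1 then 1 else 0)

/-- the `2 × 2` switching move -/
def sw (a : Fin (m + n) → Fin (m + n) → ℕ) (t : ℕ) : Fin (m + n) → Fin (m + n) → ℕ :=
  fun i j => ((a i j : ℤ) + t * (sgn i0 i1 i * sgn i0 i1 j)).toNat

variable {i0 i1}

lemma sum_sgn : ∑ i, sgn i0 i1 i = 0 := by
  simp [sgn, Finset.sum_sub_distrib]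

lemma sw_cast (h : i0 ≠ i1) {a : Fin (m + n) → Fin (m + n) → ℕ} {t : ℕ}
    (h1 : t ≤ a i0 i1) (h2 : t ≤ a i1 i0) (i j : Fin (m + n)) :
    ((sw i0 i1 a t i j : ℕ) : ℤ) = a i j + t * (sgn i0 i1 i * sgn i0 i1 j) := by
  unfold sw
  apply Int.toNat_of_nonneg
  unfold sgn
  by_cases hi0 : i = i0
  · subst hi0
    by_cases hj0 : j = i
    · subst hj0; simp [h]; positivity
    · by_cases hj1 : j = i1
      · subst hj1
        simp [h, Ne.symm h]; omega
      · simp [h, hj0, hj1]
  · by_cases hi1 : i = i1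
    · subst hi1
      by_cases hj0 : j = i0
      · subst hj0; simp [h, hi0]; omega
      · by_cases hj1 : j = i
        · subst hj1
          simp [Ne.symm h]; positivity
        · simp [Ne.symm h, hj0, hj1]
    · simp [hi0, hi1]

lemma sw_mem (h : i0 ≠ i1) {R S : ℕ} {a : Fin (m + n) → Fin (m + n) → ℕ} {t : ℕ}
    (ha : a ∈ tables m n R S) (h1 : t ≤ a i0 i1) (h2 : t ≤ a i1 i0) :
    sw i0 i1 a t ∈ tables m n R S := by
  refine ⟨fun i => ?_, fun j => ?_⟩
  · rw [← ha.1 i]
    zify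
    simp only [sw_cast h h1 h2]
    rw [Finset.sum_add_distrib]
    simp_rw [← mul_assoc]
    rw [← Finset.mul_sum, sum_sgn]; simp
  · rw [← ha.2 j]
    zify
    simp only [sw_cast h h1 h2]
    rw [Finset.sum_add_distrib]
    have : ∀ i, (t : ℤ) * (sgn i0 i1 i * sgn i0 i1 j) = (t * sgn i0 i1 j) * sgn i0 i1 i := by
      intro i; ring
    simp_rw [this]
    rw [← Finset.mul_sum, sum_sgn]; simp

lemma switch_count (h : i0 ≠ i1) (T : Finset (Fin (m + n) → Fin (m + n) → ℕ)) {R S : ℕ}
    (hT : ∀ a, a ∈ T ↔ a ∈ tables m n R S) (W : Finset ℕ) (J : ℕ) (hJ : ∀ k ∈ W, J ≤ k) :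
    (T.filter (fun a => a i0 i0 ∈ W ∧ a i0 i1 ∈ W ∧ a i1 i0 ∈ W)).card * (J + 1)
      ≤ T.card * W.card := by
  rw [← Finset.card_range (J + 1), ← Finset.card_product, ← Finset.card_product]
  apply Finset.card_le_card_of_injOn (fun p => (sw i0 i1 p.1 p.2, p.1 i0 i0))
  · intro p hp
    simp only [Finset.coe_product, Set.mem_prod, Finset.mem_coe, Finset.mem_filter,
      Finset.mem_range] at hp ⊢
    obtain ⟨⟨hp1, hp2, hp3, hp4⟩, hp5⟩ := hp
    refine ⟨?_, hp2⟩
    rw [hT] at hp1 ⊢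
    apply sw_mem h hp1
    · have := hJ _ hp3; omega
    · have := hJ _ hp4; omega
  · intro p hp q hq hpq
    simp only [Finset.coe_product, Set.mem_prod, Finset.mem_coe, Finset.mem_filter,
      Finset.mem_range] at hp hq
    simp only [Prod.mk.injEq] at hpq
    obtain ⟨⟨hp1, hp2, hp3, hp4⟩, hp5⟩ := hp
    obtain ⟨⟨hq1, hq2, hq3, hq4⟩, hq5⟩ := hq
    obtain ⟨e1, e2⟩ := hpq
    have hp3' := hJ _ hp3
    have hp4' := hJ _ hp4
    have hq3' := hJ _ hq3
    have hq4' := hJ _ hq4
    have hc : ∀ i j, (p.1 i j : ℤ) + p.2 * (sgn i0 i1 i * sgn i0 i1 j)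
        = q.1 i j + q.2 * (sgn i0 i1 i * sgn i0 i1 j) := by
      intro i j
      rw [← sw_cast h (by omega) (by omega), ← sw_cast h (by omega) (by omega), e1]
    have ht : p.2 = q.2 := by
      have h0 := hc i0 i0
      simp only [sgn, h, if_true, if_false] at h0
      have : (p.1 i0 i0 : ℤ) = q.1 i0 i0 := by exact_mod_cast e2
      simp at h0
      omega
    ext1
    · funext i j
      have h0 := hc i j
      rw [ht] at h0
      have : (p.1 i j : ℤ) = q.1 i j := by linarith
      exact_mod_cast this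
    · exact ht

lemma symm_count (T : Finset (Fin (m + n) → Fin (m + n) → ℕ)) {R S : ℕ}
    (hT : ∀ a, a ∈ T ↔ a ∈ tables m n R S) (P : ℕ → Prop) [DecidablePred P]
    {i j i' j' : Fin (m + n)} (hi : (i : ℕ) < m) (hj : (j : ℕ) < m) (hi' : (i' : ℕ) < m)
    (hj' : (j' : ℕ) < m) :
    (T.filter (fun a => P (a i j))).card = (T.filter (fun a => P (a i' j'))).card := by
  have key : ∀ (x y z : Fin (m + n)), (x : ℕ) < m → (y : ℕ) < m →
      (((Equiv.swap x y z : Fin (m + n)) : ℕ) < m ↔ (z : ℕ) < m) := by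
    intro x y z hx hy
    rw [Equiv.swap_apply_def]
    split_ifs with h1 h2
    · subst h1; simp [hx, hy]
    · subst h2; simp [hx, hy]
    · rfl
  have hmem : ∀ (a : Fin (m + n) → Fin (m + n) → ℕ), a ∈ tables m n R S →
      (fun x y => a (Equiv.swap i i' x) (Equiv.swap j j' y)) ∈ tables m n R S := by
    intro a ha
    refine ⟨fun x => ?_, fun y => ?_⟩
    · rw [Equiv.sum_comp (Equiv.swap j j') (fun y => a (Equiv.swap i i' x) y), ha.1]
      simp [key i i' x hi hi']
    · rw [Equiv.sum_comp (Equiv.swap i i') (fun x => a x (Equiv.swap j j' y)), ha.2]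
      simp [key j j' y hj hj']
  apply Finset.card_nbij' (fun a => fun x y => a (Equiv.swap i i' x) (Equiv.swap j j' y))
    (fun a => fun x y => a (Equiv.swap i i' x) (Equiv.swap j j' y))
  · intro a ha
    simp only [Finset.coe_filter, Set.mem_ofPred_eq, hT] at ha ⊢
    exact ⟨hmem a ha.1, by simpa using ha.2⟩
  · intro a ha
    simp only [Finset.coe_filter, Set.mem_ofPred_eq, hT] at ha ⊢
    exact ⟨hmem a ha.1, by simpa using ha.2⟩
  · intro a ha
    funext x y; simp
  · intro a ha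
    funext x y; simp

end switch

lemma card_window (R w : ℝ) (hRw : 0 ≤ R - w) (hw : 0 ≤ w) :
    ((Finset.Icc ⌈R - w⌉₊ ⌊R + w⌋₊).card : ℝ) ≤ 2 * w + 1 := by
  have h1 : (R - w) ≤ (⌈R - w⌉₊ : ℝ) := Nat.le_ceil _
  have h2 : (⌊R + w⌋₊ : ℝ) ≤ R + w := Nat.floor_le (by linarith)
  rw [Nat.card_Icc]
  rcases le_total ⌈R - w⌉₊ (⌊R + w⌋₊ + 1) with h | h
  · rw [Nat.cast_sub h]; push_cast; linarith
  · rw [Nat.sub_eq_zero_of_le h]; push_cast; linarith

/-- The counting heart of the argument: if at least `7/8` of the tables have their corner entry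
within `w` of `R`, then `R` is at most of the order of `w`. -/
lemma window_bound (m n R' S' : ℕ) (hm : 2 ≤ m) (R w : ℝ) (hRw : 0 ≤ R - w) (hw : 0 ≤ w)
    (T : Finset (Fin (m + n) → Fin (m + n) → ℕ)) (hT : ∀ a, a ∈ T ↔ a ∈ tables m n R' S')
    (hpos : 0 < T.card)
    (hgood : (7 / 8 : ℝ) * T.card ≤ (T.filter (fun a => |(corner a : ℝ) - R| ≤ w)).card) :
    5 * R ≤ 21 * w + 8 := by
  classical
  have hN : 0 < m + n := by omega
  have hN1 : 1 < m + n := by omega
  set i0 : Fin (m + n) := ⟨0, hN⟩ with hi0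
  set i1 : Fin (m + n) := ⟨1, hN1⟩ with hi1
  have hne : i0 ≠ i1 := by
    intro h; rw [hi0, hi1] at h; simp at h
  set W : Finset ℕ := Finset.Icc ⌈R - w⌉₊ ⌊R + w⌋₊ with hW
  have hWmem : ∀ k : ℕ, k ∈ W ↔ |(k : ℝ) - R| ≤ w := by
    intro k
    rw [hW, Finset.mem_Icc, Nat.ceil_le, Nat.le_floor_iff (by linarith), abs_le]
    constructor
    · rintro ⟨h1, h2⟩; constructor <;> linarith
    · rintro ⟨h1, h2⟩; constructor <;> linarith
  have hcorner : ∀ a : Fin (m + n) → Fin (m + n) → ℕ, corner a = a i0 i0 := by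
    intro a; simp [corner, hN, hi0]
  have hsw := switch_count (i0 := i0) (i1 := i1) hne T hT W ⌈R - w⌉₊
    (fun k hk => (Finset.mem_Icc.mp hk).1)
  have hm0 : (i0 : ℕ) < m := by simp [hi0]; omega
  have hm1 : (i1 : ℕ) < m := by simp [hi1]; omega
  -- the numbers of bad tables
  set bad : Fin (m + n) → Fin (m + n) → Finset (Fin (m + n) → Fin (m + n) → ℕ) :=
    fun i j => T.filter (fun a => a i j ∉ W) with hbad
  have hb01 : (bad i0 i1).card = (bad i0 i0).card :=
    symm_count T hT (fun k => k ∉ W) hm0 hm1 hm0 hm0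
  have hb10 : (bad i1 i0).card = (bad i0 i0).card :=
    symm_count T hT (fun k => k ∉ W) hm1 hm0 hm0 hm0
  have hgb : (T.filter (fun a => |(corner a : ℝ) - R| ≤ w)).card + (bad i0 i0).card = T.card := by
    rw [hbad]
    have : T.filter (fun a => |(corner a : ℝ) - R| ≤ w) = T.filter (fun a => a i0 i0 ∈ W) := by
      apply Finset.filter_congr
      intro a _
      rw [hWmem, hcorner]
    rw [this]
    exact Finset.card_filter_add_card_filter_not (s := T) (fun a => a i0 i0 ∈ W)
  have hcover : T ⊆ T.filter (fun a => a i0 i0 ∈ W ∧ a i0 i1 ∈ W ∧ a i1 i0 ∈ W) ∪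
      (bad i0 i0 ∪ (bad i0 i1 ∪ bad i1 i0)) := by
    intro a ha
    simp only [hbad, Finset.mem_union, Finset.mem_filter, ha, true_and]
    tauto
  have hcc := Finset.card_le_card hcover
  have hu1 := Finset.card_union_le
    (T.filter (fun a => a i0 i0 ∈ W ∧ a i0 i1 ∈ W ∧ a i1 i0 ∈ W))
    (bad i0 i0 ∪ (bad i0 i1 ∪ bad i1 i0))
  have hu2 := Finset.card_union_le (bad i0 i0) (bad i0 i1 ∪ bad i1 i0)
  have hu3 := Finset.card_union_le (bad i0 i1) (bad i1 i0)
  set E := (T.filter (fun a => a i0 i0 ∈ W ∧ a i0 i1 ∈ W ∧ a i1 i0 ∈ W)).card with hE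
  have hE1 : T.card ≤ E + 3 * (bad i0 i0).card := by omega
  have hbadR : ((bad i0 i0).card : ℝ) ≤ (1 / 8 : ℝ) * T.card := by
    have : ((T.filter (fun a => |(corner a : ℝ) - R| ≤ w)).card : ℝ) + (bad i0 i0).card
        = T.card := by exact_mod_cast hgb
    linarith
  have hE2 : (5 / 8 : ℝ) * T.card ≤ E := by
    have : (T.card : ℝ) ≤ E + 3 * (bad i0 i0).card := by exact_mod_cast hE1
    linarith
  have hJ : R - w ≤ (⌈R - w⌉₊ : ℝ) := Nat.le_ceil _
  have hswR : (E : ℝ) * ((⌈R - w⌉₊ : ℝ) + 1) ≤ T.card * W.card := by exact_mod_cast hsw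
  have hWc : (W.card : ℝ) ≤ 2 * w + 1 := card_window R w hRw hw
  have hTpos : (0 : ℝ) < T.card := by exact_mod_cast hpos
  have h1 : (5 / 8 : ℝ) * T.card * (R - w) ≤ T.card * (2 * w + 1) := by
    calc (5 / 8 : ℝ) * T.card * (R - w) ≤ E * ((⌈R - w⌉₊ : ℝ) + 1) := by
          apply mul_le_mul hE2 (by linarith) hRw (by positivity)
      _ ≤ T.card * W.card := hswR
      _ ≤ T.card * (2 * w + 1) := by
          apply mul_le_mul_of_nonneg_left hWc hTpos.le
  have h2 : T.card * ((5 / 8 : ℝ) * (R - w)) ≤ T.card * (2 * w + 1) := by linarith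
  have h3 := le_of_mul_le_mul_left h2 hTpos
  linarith

lemma exists_window : ∃ K : ℝ, 0 < K ∧
    (15 / 16 : ENNReal) < gaussianReal 0 1 (Set.Ioo (-K) K) := by
  have hmono : Monotone (fun k : ℕ => Set.Ioo (-(k : ℝ)) (k : ℝ)) := by
    intro a b hab
    apply Set.Ioo_subset_Ioo
    · simpa using (Nat.cast_le (α := ℝ)).mpr hab
    · exact_mod_cast hab
  have h := tendsto_measure_iUnion_atTop (μ := gaussianReal 0 1) hmono
  have hU : (⋃ k : ℕ, Set.Ioo (-(k : ℝ)) (k : ℝ)) = Set.univ := by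
    ext x
    simp only [Set.mem_iUnion, Set.mem_Ioo, Set.mem_univ, iff_true]
    obtain ⟨k, hk⟩ := exists_nat_gt |x|
    exact ⟨k, by rw [← abs_lt]; exact hk⟩
  rw [hU, measure_univ] at h
  have h1516 : (15 / 16 : ENNReal) < 1 := by
    rw [ENNReal.div_lt_iff (by norm_num) (by norm_num)]
    norm_num
  have hev := (h.eventually (lt_mem_nhds h1516)).and (eventually_gt_atTop 0)
  obtain ⟨k, hk, hk0⟩ := hev.exists
  exact ⟨k, by exact_mod_cast hk0, hk⟩


/-- **Disproof of the Gaussian corner conjecture.** For every `C > 0`, every `B > B_c(C)` and every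
`0 < δ < 1` (in particular for every thin-bezel exponent `0 < δ < 1/2`), the normalised corner entry
of a uniform contingency table in `M_{n,δ}(B,C)` does not converge in distribution to the standard
normal law. -/
theorem result (δ B C : ℝ) (hC : 0 < C) (hB : Bc C < B) (hδ0 : 0 < δ) (hδ1 : δ < 1) :
    ¬ Tendsto (law δ B C) atTop
      (𝓝 (⟨gaussianReal 0 1, inferInstance⟩ : ProbabilityMeasure ℝ)) := by
  classical
  intro hlim
  obtain ⟨K, hK0, hK⟩ := exists_window
  -- the limit of the probability of the window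
  have hfr : gaussianReal 0 1 (frontier (Set.Ioo (-K) K)) = 0 := by
    rw [frontier_Ioo (by linarith)]
    have : NullSingletonClass (gaussianReal 0 1) := nullSingletonClass_gaussianReal (by norm_num)
    exact Set.Finite.measure_zero (Set.toFinite _) _
  have hlim2 := ProbabilityMeasure.tendsto_measure_of_null_frontier_of_tendsto' hlim
    (E := Set.Ioo (-K) K) (by simpa using hfr)
  have hev1 : ∀ᶠ n in atTop, (15 / 16 : ENNReal) <
      ((law δ B C n : ProbabilityMeasure ℝ) : Measure ℝ) (Set.Ioo (-K) K) :=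
    hlim2.eventually (lt_mem_nhds hK)
  -- growth of the number of special rows
  have hpow1 : Tendsto (fun n : ℕ => (n : ℝ) ^ δ) atTop atTop :=
    (tendsto_rpow_atTop hδ0).comp tendsto_natCast_atTop_atTop
  have hev2 : ∀ᶠ n : ℕ in atTop, (2 : ℝ) ≤ (n : ℝ) ^ δ := hpow1.eventually_ge_atTop 2
  have hc : 0 < C * (B - Bc C) := mul_pos hC (by linarith)
  set c := C * (B - Bc C) with hcdef
  set σ := √(Bc C * C + (Bc C * C) ^ 2) with hσdef
  have hBc : 0 < Bc C := by unfold Bc; positivity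
  have hσ : 0 < σ := by rw [hσdef]; positivity
  have hpow2 : Tendsto (fun n : ℕ => (n : ℝ) ^ ((1 - δ) / 2)) atTop atTop :=
    (tendsto_rpow_atTop (by linarith)).comp tendsto_natCast_atTop_atTop
  have hev3 : ∀ᶠ n : ℕ in atTop, (21 * (K * σ) + 9) / (5 * c) + 1 + K * σ / c ≤
      (n : ℝ) ^ ((1 - δ) / 2) := hpow2.eventually_ge_atTop _
  obtain ⟨n, hn1, hn2, hn3, hn4⟩ := (hev1.and (hev2.and (hev3.and (eventually_gt_atTop 0)))).exists
  set x := (n : ℝ) ^ ((1 - δ) / 2) with hx
  have hnpos : (0 : ℝ) < n := by exact_mod_cast hn4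
  have hxx : (n : ℝ) ^ (1 - δ) = x ^ 2 := by
    rw [hx, ← Real.rpow_natCast, ← Real.rpow_mul hnpos.le]
    norm_num
  have hxpos : 0 < x := Real.rpow_pos_of_pos hnpos _
  have hx1 : 1 ≤ x := by
    have h1 : 0 ≤ (21 * (K * σ) + 9) / (5 * c) := by positivity
    have h2 : 0 ≤ K * σ / c := by positivity
    linarith
  have hx2 : 21 * (K * σ) + 9 ≤ 5 * c * x := by
    have h2 : 0 ≤ K * σ / c := by positivity
    have h3 : (21 * (K * σ) + 9) / (5 * c) ≤ x := by linarith
    rw [div_le_iff₀ (by positivity)] at h3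
    linarith
  have hx3 : K * σ ≤ c * x := by
    have h1 : 0 ≤ (21 * (K * σ) + 9) / (5 * c) := by positivity
    have h3 : K * σ / c ≤ x := by linarith
    rw [div_le_iff₀ hc] at h3
    linarith
  set R := c * x ^ 2 with hR
  set w := K * σ * x with hw
  have hw0 : 0 ≤ w := by positivity
  have hRw : 0 ≤ R - w := by
    have : w ≤ R := by
      calc w = (K * σ) * x := rfl
        _ ≤ (c * x) * x := by apply mul_le_mul_of_nonneg_right hx3 hxpos.le
        _ = R := by rw [hR]; ring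
    linarith
  -- the finite set of tables
  set m := ⌊(n : ℝ) ^ δ⌋₊ with hm
  have hm2 : 2 ≤ m := Nat.le_floor (by exact_mod_cast hn2)
  have hfin : (tablesM δ B C n).Finite := tables_finite _ _ _ _
  set T := hfin.toFinset with hT
  have hTmem : ∀ a, a ∈ T ↔ a ∈ tables m n ⌊B * C * n⌋₊ ⌊C * n⌋₊ := by
    intro a; rw [hT, Set.Finite.mem_toFinset]; rfl
  have hTne : T.Nonempty := by
    rw [hT, Set.Finite.toFinset_nonempty]; exact tables_nonempty _ _ _ _
  have hTpos : 0 < T.card := hTne.card_pos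
  have hgoodset : (normalised δ B C n) ⁻¹' (Set.Ioo (-K) K) ⊆
      {a | |(corner a : ℝ) - R| ≤ w} := by
    intro a ha
    simp only [Set.mem_preimage, Set.mem_Ioo, ← abs_lt] at ha
    simp only [Set.mem_ofPred_eq]
    unfold normalised at ha
    rw [← hcdef, ← hσdef, hxx, ← hR, ← hx, abs_div, abs_of_pos (mul_pos hxpos hσ),
      div_lt_iff₀ (mul_pos hxpos hσ)] at ha
    have : K * (x * σ) = w := by rw [hw]; ring
    rw [this] at ha
    exact ha.le
  have hgood : (7 / 8 : ℝ) * T.card ≤ (T.filter (fun a => |(corner a : ℝ) - R| ≤ w)).card := by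
    have h1 : ((law δ B C n : ProbabilityMeasure ℝ) : Measure ℝ) (Set.Ioo (-K) K)
        = uniformOn (tablesM δ B C n) ((normalised δ B C n) ⁻¹' (Set.Ioo (-K) K)) := by
      change (uniformOn (tablesM δ B C n)).map (normalised δ B C n) (Set.Ioo (-K) K) = _
      rw [Measure.map_apply (measurable_any _) measurableSet_Ioo]
    rw [h1] at hn1
    have h2 : uniformOn (tablesM δ B C n) ((normalised δ B C n) ⁻¹' (Set.Ioo (-K) K))
        ≤ uniformOn (tablesM δ B C n) (tablesM δ B C n ∩ {a | |(corner a : ℝ) - R| ≤ w}) := by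
      rw [uniformOn_inter_self hfin]
      exact measure_mono hgoodset
    have h3 : (tablesM δ B C n ∩ {a | |(corner a : ℝ) - R| ≤ w}) =
        ((T.filter (fun a => |(corner a : ℝ) - R| ≤ w) : Finset _) :
          Set (Fin (m + n) → Fin (m + n) → ℕ)) := by
      ext a
      simp only [Set.mem_inter_iff, Set.mem_ofPred_eq, Finset.coe_filter, hT,
        Set.Finite.mem_toFinset]
      exact Iff.rfl
    have h4 : (tablesM δ B C n) = (T : Set (Fin (m + n) → Fin (m + n) → ℕ)) := by
      rw [hT, Set.Finite.coe_toFinset]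
    have h5 : uniformOn (tablesM δ B C n) (tablesM δ B C n ∩ {a | |(corner a : ℝ) - R| ≤ w})
        = ((T.filter (fun a => |(corner a : ℝ) - R| ≤ w)).card : ENNReal) / T.card := by
      rw [h3, h4, uniformOn_apply_finset, Finset.inter_eq_right.mpr (Finset.filter_subset _ _)]
    rw [h5] at h2
    have h6 := hn1.trans_le h2
    have h7 := (ENNReal.toReal_lt_toReal (by
        apply ENNReal.div_ne_top <;> norm_num) (by
        apply ENNReal.div_ne_top
        · simp
        · simpa using hTne.ne_empty)).mpr h6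
    rw [ENNReal.toReal_div, ENNReal.toReal_div] at h7
    simp only [ENNReal.toReal_ofNat, ENNReal.toReal_natCast] at h7
    have hTR : (0 : ℝ) < T.card := by exact_mod_cast hTpos
    rw [lt_div_iff₀ hTR] at h7
    linarith
  have hfinal := window_bound m n _ _ hm2 R w hRw hw0 T hTmem hTpos hgood
  -- contradiction
  have : 5 * R = (5 * c * x) * x := by rw [hR]; ring
  rw [this] at hfinal
  have h8 : (21 * (K * σ) + 9) * x ≤ (5 * c * x) * x :=
    mul_le_mul_of_nonneg_right hx2 hxpos.le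
  have h9 : (21 * (K * σ) + 9) * x = 21 * w + 9 * x := by rw [hw]; ring
  linarith

end Pool.Agent.Results.MP_2c00b8_pr.CornerNotGaussian
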